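import Pool.Agent.H42.XS.Targets
import Pool.Agent.H60.SYM.All

/-!
Circuits symmetric under exchanges of literals: module AVA (number of available vectors).
-/

namespace Pool.Agent.H37.XS

open Finset Pool.Agent.H60.SYM Pool.Agent.H42.XS

/-- the pairing with `z`, restricted to `U` -/
noncomputable def res {n : ℕ} (U : Submodule (ZMod 2) (Fin n → ZMod 2)) :
    (Fin n → ZMod 2) →ₗ[ZMod 2] Module.Dual (ZMod 2) U where
  toFun z :=
    { toFun := fun u => pair z (u : Fin n → ZMod 2)
      map_add' := fun u w => by
        unfold pair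
        rw [← sum_add_distrib]
        refine sum_congr rfl fun v _ => ?_
        rw [Submodule.coe_add, Pi.add_apply, mul_add]
      map_smul' := fun r u => by
        unfold pair
        rw [RingHom.id_apply, smul_eq_mul, mul_sum]
        refine sum_congr rfl fun v _ => ?_
        rw [Submodule.coe_smul, Pi.smul_apply, smul_eq_mul]
        ring }
  map_add' z w := by
    refine LinearMap.ext fun u => ?_
    change pair (z + w) u = pair z u + pair w u
    unfold pair
    rw [← sum_add_distrib]
    refine sum_congr rfl fun v _ => ?_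
    rw [Pi.add_apply, add_mul]
  map_smul' r z := by
    refine LinearMap.ext fun u => ?_
    change pair (r • z) u = r * pair z u
    unfold pair
    rw [mul_sum]
    refine sum_congr rfl fun v _ => ?_
    rw [Pi.smul_apply, smul_eq_mul, mul_assoc]

theorem res_apply {n : ℕ} (U : Submodule (ZMod 2) (Fin n → ZMod 2)) (z : Fin n → ZMod 2) (u : U) :
    res U z u = pair z u := rfl

theorem res_surj {n : ℕ} (U : Submodule (ZMod 2) (Fin n → ZMod 2)) :
    Function.Surjective (res U) := by
  intro w
  obtain ⟨g, hg⟩ := LinearMap.exists_extend w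
  refine ⟨fun v => g (Pi.single v 1), ?_⟩
  refine LinearMap.ext fun u => ?_
  rw [res_apply, ← hg, LinearMap.comp_apply, Submodule.subtype_apply]
  unfold pair
  have h1 : (u : Fin n → ZMod 2) = ∑ v, (u : Fin n → ZMod 2) v • (Pi.single v (1 : ZMod 2)) := by
    funext x
    rw [Finset.sum_apply]
    simp [Pi.single_apply]
  conv_rhs => rw [h1]
  rw [map_sum]
  refine sum_congr rfl fun v _ => ?_
  rw [map_smul, smul_eq_mul, mul_comm]

theorem pf_AVA (hEX : T_EX) : T_AVA := by
  classical
  intro n k s U C hsym
  obtain ⟨hA1, hA2, hA3, _⟩ := Pool.Agent.H99.SYM.aut (Cl n k) s C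
  obtain ⟨hE1, hE2, _⟩ := hEX n k
  have : Finite (Fin n → ZMod 2) := inferInstance
  have : Finite U := inferInstance
  let L : U → Equiv.Perm (Fin s) → Prop := fun u a => C.Extends (exch (u : Fin n → ZMod 2)) a
  have : Finite (Module.Dual (ZMod 2) U) := Module.finite_of_finite (ZMod 2)
  have : Fintype (Module.Dual (ZMod 2) U) := Fintype.ofFinite _
  obtain ⟨Ω, hΩ⟩ : ∃ Ω : Finset (Module.Dual (ZMod 2) U), Ω = univ.filter fun w =>
    ∃ g, ∀ u a, L u a → a g = g → w u = 0 := ⟨_, rfl⟩
  have hcard : Ω.card ≤ s := by
    refine Pool.Agent.H2.SYM.orb s U L ?_ ?_ ?_ ?_ Ω ?_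
    · change C.Extends (exch ((0 : U) : Fin n → ZMod 2)) 1
      have h0 : (exch ((0 : U) : Fin n → ZMod 2) : Cl n k → Cl n k) = fun i => i := by
        funext D
        rw [Submodule.coe_zero]
        exact hE2 D
      rw [h0]
      exact hA1
    · intro v w a b ha hb
      change C.Extends (exch ((v + w : U) : Fin n → ZMod 2)) (a * b)
      have h0 : (exch ((v + w : U) : Fin n → ZMod 2) : Cl n k → Cl n k) =
          exch (v : Fin n → ZMod 2) ∘ exch (w : Fin n → ZMod 2) := by
        funext D
        rw [Submodule.coe_add]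
        exact hE1 _ _ D
      rw [h0]
      exact hA2 _ _ _ _ ha hb
    · intro v a ha
      refine hA3 _ _ a (fun D => ?_) ha
      rw [← hE1]
      have h2 : (v : Fin n → ZMod 2) + v = 0 := by
        funext x
        rw [Pi.add_apply, Pi.zero_apply]
        generalize (v : Fin n → ZMod 2) x = t
        revert t
        decide
      rw [h2]
      exact hE2 D
    · intro v
      exact hsym v v.2
    · intro w hw
      rw [hΩ, mem_filter] at hw
      exact hw.2
  have hav : ∀ z, Avail U C z → res U z ∈ Ω := by
    intro z hz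
    rw [hΩ, mem_filter]
    obtain ⟨g, hg⟩ := hz
    exact ⟨mem_univ _, g, fun u a ha hf => hg u u.2 a ha hf⟩
  have hker : (Nat.card (LinearMap.ker (res U))) * 2 ^ Module.finrank (ZMod 2) U = 2 ^ n := by
    have h1 : Module.finrank (ZMod 2) (LinearMap.range (res U)) +
        Module.finrank (ZMod 2) (LinearMap.ker (res U)) =
          Module.finrank (ZMod 2) (Fin n → ZMod 2) := LinearMap.finrank_range_add_finrank_ker _
    rw [LinearMap.range_eq_top.2 (res_surj U), finrank_top, Subspace.dual_finrank_eq,
      Module.finrank_fin_fun] at h1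
    have h2 : Nat.card (LinearMap.ker (res U)) =
        2 ^ Module.finrank (ZMod 2) (LinearMap.ker (res U)) := by
      have : Fintype (LinearMap.ker (res U)) := Fintype.ofFinite _
      rw [Nat.card_eq_fintype_card, Module.card_eq_pow_finrank (K := ZMod 2), ZMod.card]
    rw [h2, ← pow_add, add_comm, h1]
  have hfib : ∀ w : Module.Dual (ZMod 2) U,
      (univ.filter fun z : Fin n → ZMod 2 => res U z = w).card ≤
        Nat.card (LinearMap.ker (res U)) := by
    intro w
    obtain ⟨z₀, hz₀⟩ := res_surj U w
    have : Fintype (LinearMap.ker (res U)) := Fintype.ofFinite _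
    rw [Nat.card_eq_fintype_card, ← Finset.card_univ]
    refine Finset.card_le_card_of_injOn (fun z => if h : z - z₀ ∈ LinearMap.ker (res U)
      then ⟨z - z₀, h⟩ else 0) (fun _ _ => Finset.mem_coe.2 (mem_univ _)) ?_
    intro z hz z' hz' he
    have hk : ∀ y ∈ (univ.filter fun z : Fin n → ZMod 2 => res U z = w),
        y - z₀ ∈ LinearMap.ker (res U) := by
      intro y hy
      rw [mem_filter] at hy
      rw [LinearMap.mem_ker, map_sub, hy.2, hz₀, sub_self]
    simp only at he
    rw [dif_pos (hk z (Finset.mem_coe.1 hz)), dif_pos (hk z' (Finset.mem_coe.1 hz'))] at he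
    have := congrArg Subtype.val he
    simp only at this
    exact sub_left_inj.1 this
  have hmain : Nat.card {z // Avail U C z} * 2 ^ Module.finrank (ZMod 2) U ≤ s * 2 ^ n := by
    have h1 : Nat.card {z // Avail U C z} ≤ Ω.card * Nat.card (LinearMap.ker (res U)) := by
      rw [Nat.card_eq_fintype_card, Fintype.card_subtype]
      have h2 : (univ.filter fun z => Avail U C z) ⊆
          Ω.biUnion fun w => univ.filter fun z : Fin n → ZMod 2 => res U z = w := by
        intro z hz
        rw [mem_filter] at hz
        exact mem_biUnion.2 ⟨res U z, hav z hz.2, mem_filter.2 ⟨mem_univ _, rfl⟩⟩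
      refine (card_le_card h2).trans (card_biUnion_le.trans ?_)
      rw [← smul_eq_mul, ← Finset.sum_const]
      exact sum_le_sum fun w _ => hfib w
    calc Nat.card {z // Avail U C z} * 2 ^ Module.finrank (ZMod 2) U
        ≤ (Ω.card * Nat.card (LinearMap.ker (res U))) * 2 ^ Module.finrank (ZMod 2) U :=
          Nat.mul_le_mul_right _ h1
      _ = Ω.card * 2 ^ n := by rw [mul_assoc, hker]
      _ ≤ s * 2 ^ n := Nat.mul_le_mul_right _ hcard
  have hr : (2 : ℝ) ^ ((n : ℝ) - Module.finrank (ZMod 2) U) =
      2 ^ n / 2 ^ Module.finrank (ZMod 2) U := by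
    rw [Real.rpow_sub (by norm_num), Real.rpow_natCast, Real.rpow_natCast]
  rw [hr, ← mul_div_assoc, le_div_iff₀ (by positivity)]
  exact_mod_cast hmain

end Pool.Agent.H37.XS
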