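import Pool.Agent.H42.XS.Targets
import Pool.Agent.H60.SYM.All

/-!
Circuits symmetric under exchanges of literals: module MATX (after `MatG.lean` of helper60).
-/

namespace Pool.Agent.H37.XS

open Finset Pool.Agent.H60.SYM Pool.Agent.H42.XS Pool.Agent.H27.SYM

theorem pf_MATX : T_MATX := by
  classical
  have hFOU : T_FOU := Pool.Agent.H27.SYM.fou Pool.Agent.H19.SYM.bin
  intro d K α η hK hα0 hα4 hη hlt
  have hK0 : (0 : ℝ) < K := by
    have : 0 < K := hK
    exact_mod_cast this
  have hK1 : (1 : ℝ) ≤ K := by exact_mod_cast hK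
  obtain ⟨q, hq⟩ : ∃ q : ℝ, q = α / K := ⟨_, rfl⟩
  have hq0 : 0 < q := by rw [hq]; positivity
  have hq1 : q ≤ 1 := by
    rw [hq, div_le_one hK0]
    linarith
  obtain ⟨ζ, hζ⟩ : ∃ ζ : ℝ, ζ = Real.exp (-(9 / 10 * (α * (d + 1)))) := ⟨_, rfl⟩
  have hζ0 : 0 < ζ := by rw [hζ]; exact Real.exp_pos _
  have hlog : α * Real.log (Real.exp 1 * K / α) = α - α * Real.log q := by
    have h1 : Real.exp 1 * K / α = Real.exp 1 * q⁻¹ := by
      rw [hq]
      field_simp
    rw [h1, Real.log_mul (Real.exp_pos 1).ne' (inv_ne_zero hq0.ne'), Real.log_exp, Real.log_inv]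
    ring
  obtain ⟨γ, hγ⟩ : ∃ γ : ℝ, γ = η * Real.log 2 - (α - α * Real.log q) - ζ := ⟨_, rfl⟩
  have hγ0 : 0 < γ := by
    rw [hγ, ← hlog, hζ]
    linarith
  refine ⟨max (9 * (d + 1)) ⌈((d : ℝ) + 2) / γ⌉₊, fun n hn B hB => ?_⟩
  have hdn9 : 9 * (d + 1) ≤ n := (le_max_left _ _).trans hn
  have hdn : d + 1 ≤ n := by omega
  have hn3 : (d : ℝ) + 2 ≤ γ * n := by
    have h1 : ((d : ℝ) + 2) / γ ≤ n :=
      (Nat.le_ceil _).trans (Nat.cast_le.2 ((le_max_right _ _).trans hn))
    rw [div_le_iff₀ hγ0] at h1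
    linarith
  have hn1 : 0 < n := by omega
  have hn0 : (0 : ℝ) < n := by exact_mod_cast hn1
  obtain ⟨Y, hY⟩ : ∃ Y : Finset (Fin (K * n) → ZMod 2), Y = univ.filter fun y =>
    α * n / 2 ≤ wt y ∧ (wt y : ℝ) ≤ α * n := ⟨_, rfl⟩
  have hYc : (Y.card : ℝ) ≤ Real.exp ((α - α * Real.log q) * n) := by
    have h1 := card_small hq0 hq1 Y (s := α * n) (fun y hy => by
      rw [hY, mem_filter] at hy
      exact hy.2.2)
    have h2 : q * (K * n : ℕ) = α * n := by
      rw [hq]
      push_cast
      field_simp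
    rw [h2] at h1
    have h3 : Real.exp ((α - α * Real.log q) * n) =
        Real.exp (α * n) * Real.exp (-(α * n * Real.log q)) := by
      rw [← Real.exp_add]
      congr 1
      ring
    have h4 : (Y.card : ℝ) = (Y.card : ℝ) * Real.exp (α * n * Real.log q) *
        Real.exp (-(α * n * Real.log q)) := by
      rw [mul_assoc, ← Real.exp_add, add_neg_cancel, Real.exp_zero, mul_one]
    rw [h3, h4]
    exact mul_le_mul_of_nonneg_right h1 (Real.exp_pos _).le
  have hBc : (B.card : ℝ) ≤ 2 ^ n * Real.exp (-(η * Real.log 2 * n)) := by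
    refine hB.trans (le_of_eq ?_)
    rw [Real.rpow_def_of_pos (by norm_num), ← Real.rpow_natCast 2 n,
      Real.rpow_def_of_pos (by norm_num), ← Real.exp_add]
    congr 1
    ring
  have hprod : (Y.card : ℝ) * B.card * (2 ^ (d + 1) / 2 ^ n * Real.exp (ζ * n)) < 1 := by
    have h2e : (2 : ℝ) < Real.exp 1 := by
      have := Real.add_one_lt_exp (one_ne_zero : (1 : ℝ) ≠ 0)
      linarith
    have h5 : (2 : ℝ) ^ (d + 1) < Real.exp (d + 2) := by
      calc (2 : ℝ) ^ (d + 1) ≤ Real.exp 1 ^ (d + 1) :=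
            pow_le_pow_left₀ (by norm_num) h2e.le _
        _ = Real.exp (d + 1) := by
          rw [← Real.exp_nat_mul]
          push_cast
          ring_nf
        _ < Real.exp (d + 2) := Real.exp_lt_exp.2 (by linarith)
    calc (Y.card : ℝ) * B.card * (2 ^ (d + 1) / 2 ^ n * Real.exp (ζ * n))
        ≤ Real.exp ((α - α * Real.log q) * n) * (2 ^ n * Real.exp (-(η * Real.log 2 * n))) *
          (2 ^ (d + 1) / 2 ^ n * Real.exp (ζ * n)) := by
          refine mul_le_mul_of_nonneg_right ?_ (by positivity)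
          exact mul_le_mul hYc hBc (Nat.cast_nonneg _) (Real.exp_pos _).le
      _ = 2 ^ (d + 1) * (Real.exp ((α - α * Real.log q) * n) *
          Real.exp (-(η * Real.log 2 * n)) * Real.exp (ζ * n)) := by
          have : (2 : ℝ) ^ n ≠ 0 := by positivity
          field_simp
      _ = 2 ^ (d + 1) * Real.exp (-(γ * n)) := by
          rw [← Real.exp_add, ← Real.exp_add, hγ]
          congr 2
          ring
      _ < Real.exp (d + 2) * Real.exp (-(γ * n)) :=
          mul_lt_mul_of_pos_right h5 (Real.exp_pos _)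
      _ = Real.exp (d + 2 - γ * n) := by
          rw [← Real.exp_add]
          congr 1
      _ ≤ 1 := by
          rw [Real.exp_le_one_iff]
          linarith
  obtain ⟨e, he, heB⟩ := union_bound (d := d) Y B
    (c := 2 ^ (d + 1) / 2 ^ n * Real.exp (ζ * n)) (fun y hy z _ => by
      refine (hFOU n d (K * n) y z hdn).trans ?_
      refine mul_le_mul_of_nonneg_left ?_ (Nat.cast_nonneg _)
      refine mul_le_mul_of_nonneg_left ?_ (by positivity)
      rw [hY, mem_filter] at hy
      have h1 : 9 / 10 * (α * ((d : ℝ) + 1)) ≤ 2 * wt y * (d + 1) / (n + d + 1) := by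
        have hdn' : 9 * ((d : ℝ) + 1) ≤ n := by exact_mod_cast hdn9
        have hd1 : (0 : ℝ) < (d : ℝ) + 1 := by positivity
        rw [le_div_iff₀ (by positivity)]
        have h2 : α * n ≤ 2 * wt y := by linarith [hy.2.1]
        calc 9 / 10 * (α * ((d : ℝ) + 1)) * (n + d + 1)
            = α * ((d : ℝ) + 1) * (9 / 10 * (n + (d + 1))) := by ring
          _ ≤ α * ((d : ℝ) + 1) * n := by
              refine mul_le_mul_of_nonneg_left (by linarith) (by positivity)
          _ = (α * n) * (d + 1) := by ring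
          _ ≤ (2 * wt y) * (d + 1) := mul_le_mul_of_nonneg_right h2 hd1.le
      have h3 : Real.exp (-(2 * wt y * (d + 1) / (n + d + 1))) ≤ ζ := by
        rw [hζ]
        exact Real.exp_le_exp.2 (neg_le_neg h1)
      have h4 := Real.add_one_le_exp (Real.exp (-(2 * wt y * (d + 1) / (n + d + 1)) : ℝ))
      calc (1 + Real.exp (-(2 * wt y * (d + 1) / (n + d + 1)))) ^ n
          ≤ (Real.exp (Real.exp (-(2 * wt y * (d + 1) / (n + d + 1))))) ^ n := by
            refine pow_le_pow_left₀ (by positivity) ?_ n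
            linarith
        _ ≤ (Real.exp ζ) ^ n :=
            pow_le_pow_left₀ (Real.exp_pos _).le (Real.exp_le_exp.2 h3) n
        _ = Real.exp (ζ * n) := by
            rw [← Real.exp_nat_mul]
            congr 1
            ring) hdn hprod
  refine ⟨e, partite_inj he, fun y hy1 hy2 => ?_⟩
  exact heB y (by
    rw [hY, mem_filter]
    exact ⟨mem_univ _, hy1, hy2⟩)

end Pool.Agent.H37.XS
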